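import Pool.Agent.Run7.h624.Met.MK

/-!
# Piece RMV of the project MP_dd21b1_pr (helper146): removal of at most `k` points
-/

set_option autoImplicit false

open MeasureTheory Filter Topology ENNReal

namespace Run7.h624.Met

open Run7.h146.Met

lemma mem_del {α : Type*} {x z : α} {F : Finset α} : x ∈ del z F ↔ x ≠ z ∧ x ∈ F := by
  classical
  unfold del
  rw [Finset.mem_erase]

open Classical in
/-- the number of the sets of `i` points in `B` whose removal leads to `A` (ordered) -/
noncomputable def NR {d : ℕ} (B : Set (X d)) (A : Set (Finset (X d))) : ℕ → Finset (X d) → ℝ≥0∞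
  | 0, F => if F ∈ A then 1 else 0
  | i + 1, F => ∑ x ∈ F, if x ∈ B then NR B A i (del x F) else 0

lemma NR_ge {d : ℕ} {B : Set (X d)} {A : Set (Finset (X d))} : ∀ (i : ℕ) (F K : Finset (X d)),
    K ⊆ F → K.card = i → (∀ x ∈ K, x ∈ B) →
    (∀ F', (∀ x, x ∈ F' ↔ x ∈ F ∧ x ∉ K) → F' ∈ A) → 1 ≤ NR B A i F := by
  classical
  intro i
  induction i with
  | zero =>
    intro F K _ hK _ hA
    have hK0 : K = ∅ := Finset.card_eq_zero.1 hK
    have hF : F ∈ A := hA F fun x => by simp [hK0]
    simp [NR, hF]
  | succ i ih =>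
    intro F K hKF hK hB hA
    obtain ⟨x, hx⟩ : K.Nonempty := by
      rw [← Finset.card_pos]
      omega
    have h1 : 1 ≤ NR B A i (del x F) := by
      refine ih (del x F) (K.erase x) ?_ ?_ ?_ ?_
      · intro y hy
        rw [Finset.mem_erase] at hy
        rw [mem_del]
        exact ⟨hy.1, hKF hy.2⟩
      · rw [Finset.card_erase_of_mem hx]
        omega
      · intro y hy
        exact hB y (Finset.mem_of_mem_erase hy)
      · intro F' hF'
        refine hA F' fun y => ?_
        rw [hF' y, mem_del, Finset.mem_erase]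
        constructor
        · rintro ⟨⟨h1, h2⟩, h3⟩
          exact ⟨h2, fun h => h3 ⟨h1, h⟩⟩
        · rintro ⟨h1, h2⟩
          have h3 : y ≠ x := fun h => h2 (h ▸ hx)
          exact ⟨⟨h3, h1⟩, fun h => h2 h.2⟩
    show 1 ≤ ∑ y ∈ F, if y ∈ B then NR B A i (del y F) else 0
    refine le_trans ?_ (Finset.single_le_sum (f := fun y => if y ∈ B then NR B A i (del y F) else 0)
      (fun _ _ => zero_le) (hKF hx))
    simp only [if_pos (hB x hx)]
    exact h1

lemma TM_step (h1 : S_PO1) (h2 : S_PO2) {d : ℕ} {B : Set (X d)} (hB : MeasurableSet B)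
    {G : Finset (X d) → ℝ≥0∞} (hG : Measurable G) (β : Type) [MeasurableSpace β]
    (g : β → X d) (hg : Measurable g) : letI := Classical.propDecidable
    TM (fun (b : β) F => if g b ∈ B then G (del (g b) F) else 0) := by
  intro n
  have hT : TM (fun _ : Unit => G) := (h1 d (0 : Measure (X d))).2.2.2 Unit G hG
  have hD := (h2 d Unit (fun _ => G) hT).2.1 n
  have h3 : Measurable fun p : β × (Fin n → X d) => G (del (g p.1) (im p.2)) :=
    hD.comp (f := fun p : β × (Fin n → X d) => (((), g p.1), p.2))
      ((measurable_const.prodMk (hg.comp measurable_fst)).prodMk measurable_snd)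
  exact Measurable.ite ((hg.comp measurable_fst) hB) h3 measurable_const

lemma NR_meas (h1 : S_PO1) (h2 : S_PO2) (h3 : S_PO3) {d : ℕ} {B : Set (X d)} (hB : MeasurableSet B)
    {A : Set (Finset (X d))} (hA : MeasurableSet A) : ∀ i, Measurable (NR B A i) := by
  classical
  intro i
  induction i with
  | zero =>
    have h : NR B A 0 = A.indicator 1 := by
      funext F
      by_cases hF : F ∈ A <;> simp [NR, hF]
    rw [h]
    exact measurable_one.indicator hA
  | succ i ih =>
    have hT := TM_step h1 h2 hB ih (Unit × X d) Prod.snd measurable_snd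
    exact meas_sec h1 _ (h3 d Unit _ hT) ()

lemma del_ins {α : Type*} {x : α} {F : Finset α} (h : x ∉ F) : del x (ins x F) = F := by
  ext y
  rw [mem_del, mem_ins]
  constructor
  · rintro ⟨h1, h2 | h2⟩
    · exact absurd h2 h1
    · exact h2
  · intro hy
    exact ⟨fun h3 => h (h3 ▸ hy), Or.inr hy⟩

lemma NR_int (h1 : S_PO1) (h2 : S_PO2) (h3 : S_PO3) (hMK : S_MK) {d : ℕ} {B : Set (X d)}
    (hB : MeasurableSet B) {A : Set (Finset (X d))} (hA : MeasurableSet A) (ν : Measure (X d))
    [IsFiniteMeasure ν] [NullSingletonClass ν] :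
    ∀ i, ∫⁻ F, NR B A i F ∂(poi ν) = ν B ^ i * poi ν A := by
  classical
  intro i
  induction i with
  | zero =>
    have h : NR B A 0 = A.indicator 1 := by
      funext F
      by_cases hF : F ∈ A <;> simp [NR, hF]
    rw [h, lintegral_indicator_one hA, pow_zero, one_mul]
  | succ i ih =>
    have hT := TM_step h1 h2 hB (NR_meas h1 h2 h3 hB hA i) (X d) id measurable_id
    have h4 := (hMK d ν).1 _ hT
    have h5 : ∫⁻ F, NR B A (i + 1) F ∂(poi ν) =
        ∫⁻ F, ∑ x ∈ F, (if id x ∈ B then NR B A i (del (id x) F) else 0) ∂(poi ν) := by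
      refine lintegral_congr fun F => ?_
      rfl
    have h6 : ∀ x, ∫⁻ F, (if id x ∈ B then NR B A i (del (id x) (ins x F)) else 0) ∂(poi ν) =
        B.indicator (fun _ => ν B ^ i * poi ν A) x := by
      intro x
      by_cases hx : x ∈ B
      · rw [Set.indicator_of_mem hx, ← ih]
        refine lintegral_congr_ae ?_
        have h7 : ∀ᵐ F ∂(poi ν), x ∉ F := by
          have := (hMK d ν).2 x
          rw [← compl_mem_ae_iff] at this
          filter_upwards [this] with F hF
          exact hF
        filter_upwards [h7] with F hF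
        rw [id, if_pos hx, del_ins hF]
      · rw [Set.indicator_of_notMem hx]
        simp [hx]
    rw [h5]
    refine h4.trans ?_
    rw [lintegral_congr h6, lintegral_indicator_const hB, pow_succ]
    ring

/-- piece RMV -/
theorem t_RMV : S_PO1 → S_PO2 → S_PO3 → S_MK → S_RMV := by
  intro h1 h2 h3 hMK d B k hB m
  classical
  refine ⟨∑ i ∈ Finset.range (k + 1), m ^ i, fun hm => ?_, fun ν _ _ A hν hA => ?_⟩
  · exact ENNReal.sum_ne_top.2 fun i _ => ENNReal.pow_ne_top hm
  · have hmeas : Measurable fun F => ∑ i ∈ Finset.range (k + 1), NR B A i F :=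
      Finset.measurable_fun_sum _ fun i _ => NR_meas h1 h2 h3 hB hA i
    have hint : ∫⁻ F, ∑ i ∈ Finset.range (k + 1), NR B A i F ∂(poi ν) =
        (∑ i ∈ Finset.range (k + 1), ν B ^ i) * poi ν A := by
      rw [lintegral_finsetSum _ fun i _ => NR_meas h1 h2 h3 hB hA i, Finset.sum_mul]
      exact Finset.sum_congr rfl fun i _ => NR_int h1 h2 h3 hMK hB hA ν i
    have hmark := mul_meas_ge_le_lintegral (μ := poi ν) hmeas 1
    rw [one_mul, hint] at hmark
    refine le_trans (measure_mono ?_) (hmark.trans ?_)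
    · rintro F ⟨K, hKF, hKk, hKB, hKA⟩
      have h5 : 1 ≤ NR B A K.card F := by
        refine NR_ge K.card F K hKF rfl hKB fun F' hF' => ?_
        have h6 : F' = F \ K := by
          ext x
          rw [hF' x, Finset.mem_sdiff]
        rw [h6]
        exact hKA
      show 1 ≤ ∑ i ∈ Finset.range (k + 1), NR B A i F
      exact h5.trans (Finset.single_le_sum (f := fun i => NR B A i F) (fun _ _ => zero_le)
        (Finset.mem_range.2 (by omega)))
    · gcongr

end Run7.h624.Met
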