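import Pool.Agent.Run7.h146.Met.I2
import Pool.Agent.Run7.h624.Met.RMV

/-!
# Piece EXI of the project MP_dd21b1_pr (helper146): the infinite system exists
-/

set_option autoImplicit false

open MeasureTheory Filter Topology ENNReal

namespace Run7.h624.Met

open Run7.h146.Met

lemma ins_del {α : Type*} {x : α} {F : Finset α} (h : x ∈ F) : ins x (del x F) = F := by
  ext y
  rw [mem_ins, mem_del]
  constructor
  · rintro (h1 | h1)
    · rw [h1]
      exact h
    · exact h1.2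
  · intro hy
    by_cases hyx : y = x
    · exact Or.inl hyx
    · exact Or.inr ⟨hyx, hy⟩

open Classical in
/-- the indicator of a bad point -/
noncomputable def bdp {d : ℕ} (ε κ r a : ℝ) (z : X d) (F : Finset (X d)) : ℝ≥0∞ :=
  if ‖z.1‖ < a ∧ ‖z.2‖ = 1 ∧ ¬ Loc ε κ r z (del z F) then 1 else 0

lemma TM_bdp (h1 : S_PO1) (h2 : S_PO2) (hM : S_MEAS) {d : ℕ} {ε : ℝ} (hd : 0 < d) (hε : 0 < ε)
    (κ r a : ℝ) : TM (fun (z : X d) F => bdp ε κ r a z F) := by
  classical
  obtain ⟨-, -, -, -, -, -, -, hL, -⟩ := hM d ε hd hε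
  have hD := (h2 d (X d) _ (hL κ r)).2.1
  intro n
  have h3 : Measurable fun p : X d × (Fin n → X d) =>
      (if Loc ε κ r p.1 (del p.1 (im p.2)) then (1 : ℝ≥0∞) else 0) :=
    (hD n).comp (f := fun p : X d × (Fin n → X d) => ((p.1, p.1), p.2))
      ((measurable_fst.prodMk measurable_fst).prodMk measurable_snd)
  have h4 : MeasurableSet {p : X d × (Fin n → X d) | Loc ε κ r p.1 (del p.1 (im p.2))} := by
    have h5 : {p : X d × (Fin n → X d) | Loc ε κ r p.1 (del p.1 (im p.2))} =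
        (fun p : X d × (Fin n → X d) =>
          (if Loc ε κ r p.1 (del p.1 (im p.2)) then (1 : ℝ≥0∞) else 0)) ⁻¹' {1} := by
      ext p
      by_cases hp : Loc ε κ r p.1 (del p.1 (im p.2)) <;> simp [hp]
    rw [h5]
    exact h3 (measurableSet_singleton 1)
  have h6 : MeasurableSet {p : X d × (Fin n → X d) | ‖p.1.1‖ < a} :=
    measurableSet_lt (measurable_fst.fst.norm) measurable_const
  have h7 : MeasurableSet {p : X d × (Fin n → X d) | ‖p.1.2‖ = 1} :=
    measurableSet_eq_fun (measurable_fst.snd.norm) measurable_const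
  have h8 := h6.inter (h7.inter h4.compl)
  exact Measurable.ite h8 measurable_const measurable_const

/-- the probability of a bad point -/
lemma bad_le (h1 : S_PO1) (h2 : S_PO2) (h3 : S_PO3) (hMK : S_MK) (hMB : S_MB) (hM : S_MEAS)
    {d : ℕ} {ε κ C r₀ : ℝ} (hd : 0 < d) (hε : 0 < ε) (hC : LocC d ε κ C r₀) (a Q : ℝ)
    (hr : r₀ ≤ Q - a) :
    PQ d Q {F | 1 ≤ ∑ z ∈ F, bdp ε κ (Q - a) a z F} ≤
      ENNReal.ofReal (C * Real.exp (-(Q - a))) * volume (Metric.ball (0 : V d) a) := by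
  classical
  have hB : MeasurableSet (Metric.ball (0 : V d) Q) := measurableSet_ball
  have hBf : volume (Metric.ball (0 : V d) Q) ≠ ⊤ := measure_ball_lt_top.ne
  obtain ⟨hs1, -, -, hmB⟩ := hMB d hd
  obtain ⟨i1, i2, -, -⟩ := hmB _ hB hBf
  have := hs1
  have := i1
  have := i2
  have hT := TM_bdp h1 h2 hM hd hε κ (Q - a) a
  have hTs : TM (fun (p : Unit × X d) F => bdp ε κ (Q - a) a p.2 F) := by
    intro n
    exact (hT n).comp (f := fun p : (Unit × X d) × (Fin n → X d) => (p.1.2, p.2))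
      ((measurable_snd.comp measurable_fst).prodMk measurable_snd)
  have hmeas : Measurable fun F : Finset (X d) => ∑ z ∈ F, bdp ε κ (Q - a) a z F :=
    meas_sec h1 _ (h3 d Unit (fun p F => bdp ε κ (Q - a) a p.2 F) hTs) ()
  have hmark := mul_meas_ge_le_lintegral (μ := PQ d Q) hmeas 1
  rw [one_mul] at hmark
  refine hmark.trans ?_
  unfold PQ
  rw [(hMK d (mB (Metric.ball (0 : V d) Q))).1 _ hT]
  have hz : ∀ z : X d, ∫⁻ F, bdp ε κ (Q - a) a z (ins z F) ∂(poi (mB (Metric.ball (0 : V d) Q))) ≤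
      {z : X d | z.1 ∈ Metric.ball (0 : V d) a}.indicator
        (fun _ => ENNReal.ofReal (C * Real.exp (-(Q - a)))) z := by
    intro z
    by_cases hza : ‖z.1‖ < a
    · have hmem : z ∈ {z : X d | z.1 ∈ Metric.ball (0 : V d) a} := by
        show z.1 ∈ Metric.ball (0 : V d) a
        rw [mem_ball_zero_iff]
        exact hza
      rw [Set.indicator_of_mem hmem]
      by_cases hzu : ‖z.2‖ = 1
      · have hloc := hC.2.2.2.2.2 _ hB hBf (Q - a) z hr hzu
        refine le_trans ?_ hloc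
        have hms : MeasurableSet {F : Finset (X d) | ¬ Loc ε κ (Q - a) z F} := by
          obtain ⟨-, -, -, -, -, -, -, -, hL, -⟩ := hM d ε hd hε
          exact (hL z κ (Q - a)).compl
        rw [← lintegral_indicator_one hms]
        refine lintegral_mono_ae ?_
        have h7 : ∀ᵐ F ∂(poi (mB (Metric.ball (0 : V d) Q))), z ∉ F := by
          have := (hMK d (mB (Metric.ball (0 : V d) Q))).2 z
          rw [← compl_mem_ae_iff] at this
          filter_upwards [this] with F hF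
          exact hF
        filter_upwards [h7] with F hF
        unfold bdp
        rw [del_ins hF]
        by_cases hl : Loc ε κ (Q - a) z F
        · simp [hl]
        · rw [Set.indicator_of_mem (show F ∈ {F : Finset (X d) | ¬ Loc ε κ (Q - a) z F} from hl)]
          split_ifs
          · exact le_rfl
          · exact zero_le
      · have h0 : ∀ F, bdp ε κ (Q - a) a z (ins z F) = 0 := by
          intro F
          unfold bdp
          rw [if_neg]
          rintro ⟨-, h, -⟩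
          exact hzu h
        simp only [h0, lintegral_zero]
        exact zero_le
    · have h0 : ∀ F, bdp ε κ (Q - a) a z (ins z F) = 0 := by
        intro F
        unfold bdp
        rw [if_neg]
        rintro ⟨h, -, -⟩
        exact hza h
      simp only [h0, lintegral_zero]
      exact zero_le
  refine (lintegral_mono hz).trans ?_
  have hS : MeasurableSet {z : X d | z.1 ∈ Metric.ball (0 : V d) a} :=
    measurable_fst measurableSet_ball
  rw [lintegral_indicator_const hS]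
  gcongr
  have h9 : {z : X d | z.1 ∈ Metric.ball (0 : V d) a} = Metric.ball (0 : V d) a ×ˢ Set.univ := by
    ext z
    simp
  rw [h9]
  unfold mB
  rw [Measure.prod_prod, measure_univ, mul_one]
  exact Measure.restrict_apply_le _ _

/-- piece EXI -/
theorem t_EXI : S_PO1 → S_PO2 → S_PO3 → S_MK → S_MB → S_MEAS → S_FSF → S_EXI := by
  intro h1 h2 h3 hMK hMB hM hF Ω _ P _ d Pi ε κ C r₀ hd hε hC hPi
  classical
  obtain ⟨f1, f2, f3, f4, f5⟩ := hF Ω P d Pi hd hPi
  have hC' := hC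
  obtain ⟨hκ, -, hC1, hr0, hloc, -⟩ := hC'
  -- Borel-Cantelli
  have hbc : ∀ᵐ ω ∂P, ∀ a : ℕ, ∀ᶠ Q : ℕ in atTop,
      ¬ (1 ≤ ∑ z ∈ fs (Pi ω) ((Q + (a + ⌈r₀⌉₊) : ℕ) : ℝ),
        bdp ε κ (((Q + (a + ⌈r₀⌉₊) : ℕ) : ℝ) - a) a z (fs (Pi ω) ((Q + (a + ⌈r₀⌉₊) : ℕ) : ℝ))) := by
    rw [ae_all_iff]
    intro a
    refine ae_eventually_notMem (s := fun Q : ℕ => {ω |
      1 ≤ ∑ z ∈ fs (Pi ω) ((Q + (a + ⌈r₀⌉₊) : ℕ) : ℝ),
        bdp ε κ (((Q + (a + ⌈r₀⌉₊) : ℕ) : ℝ) - a) a z (fs (Pi ω) ((Q + (a + ⌈r₀⌉₊) : ℕ) : ℝ))}) ?_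
    have hle : ∀ Q : ℕ, P {ω | 1 ≤ ∑ z ∈ fs (Pi ω) ((Q + (a + ⌈r₀⌉₊) : ℕ) : ℝ),
        bdp ε κ (((Q + (a + ⌈r₀⌉₊) : ℕ) : ℝ) - a) a z (fs (Pi ω) ((Q + (a + ⌈r₀⌉₊) : ℕ) : ℝ))} ≤
        (ENNReal.ofReal C * volume (Metric.ball (0 : V d) a)) * ENNReal.ofReal (Real.exp (-1)) ^ Q := by
      intro Q
      set q : ℕ := Q + (a + ⌈r₀⌉₊) with hq
      have hqa : (Q : ℝ) ≤ (q : ℝ) - a := by
        rw [hq]
        push_cast
        have : (0 : ℝ) ≤ ⌈r₀⌉₊ := Nat.cast_nonneg _
        linarith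
      have hqr : r₀ ≤ (q : ℝ) - a := by
        rw [hq]
        push_cast
        have h5 := Nat.le_ceil r₀
        have : (0 : ℝ) ≤ Q := Nat.cast_nonneg _
        linarith
      have hT := TM_bdp h1 h2 hM hd hε κ ((q : ℝ) - a) (a : ℝ)
      have hTs : TM (fun (p : Unit × X d) F => bdp ε κ ((q : ℝ) - a) a p.2 F) := by
        intro n
        exact (hT n).comp (f := fun p : (Unit × X d) × (Fin n → X d) => (p.1.2, p.2))
          ((measurable_snd.comp measurable_fst).prodMk measurable_snd)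
      have hmeas : Measurable fun F : Finset (X d) => ∑ z ∈ F, bdp ε κ ((q : ℝ) - a) a z F :=
        meas_sec h1 _ (h3 d Unit (fun p F => bdp ε κ ((q : ℝ) - a) a p.2 F) hTs) ()
      have hset : MeasurableSet {F : Finset (X d) | 1 ≤ ∑ z ∈ F, bdp ε κ ((q : ℝ) - a) a z F} :=
        measurableSet_le measurable_const hmeas
      have h6 : P {ω | 1 ≤ ∑ z ∈ fs (Pi ω) (q : ℝ), bdp ε κ ((q : ℝ) - a) a z (fs (Pi ω) (q : ℝ))} =
          PQ d q {F | 1 ≤ ∑ z ∈ F, bdp ε κ ((q : ℝ) - a) a z F} := by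
        rw [← f2 q, Measure.map_apply (f1 q) hset]
        rfl
      rw [h6]
      refine (bad_le h1 h2 h3 hMK hMB hM hd hε hC (a : ℝ) (q : ℝ) hqr).trans ?_
      rw [mul_right_comm]
      gcongr
      rw [← ENNReal.ofReal_pow (Real.exp_pos _).le, ← Real.exp_nat_mul,
        ← ENNReal.ofReal_mul (by linarith)]
      refine ENNReal.ofReal_le_ofReal ?_
      have hC0 : 0 ≤ C := by linarith
      gcongr
      linarith
    refine ne_top_of_le_ne_top ?_ (ENNReal.tsum_le_tsum hle)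
    rw [ENNReal.tsum_mul_left, ENNReal.tsum_geometric]
    refine ENNReal.mul_ne_top (ENNReal.mul_ne_top ENNReal.ofReal_ne_top measure_ball_lt_top.ne) ?_
    rw [Ne, ENNReal.inv_eq_top, tsub_eq_zero_iff_le, not_le]
    rw [ENNReal.ofReal_lt_one]
    have h5 := Real.exp_lt_exp.2 (show (-1 : ℝ) < 0 by norm_num)
    rwa [Real.exp_zero] at h5
  filter_upwards [hbc, f5] with ω hω hu z hz T
  obtain ⟨a, ha⟩ := exists_nat_gt ‖z.1‖
  obtain ⟨Q1, hQ1⟩ := eventually_atTop.1 (hω a)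
  obtain ⟨m, hm⟩ := exists_nat_ge (T / κ)
  set q : ℕ := max Q1 m + (a + ⌈r₀⌉₊) with hq
  have hbad := hQ1 (max Q1 m) (le_max_left _ _)
  rw [← hq] at hbad
  have hqa : (m : ℝ) ≤ (q : ℝ) - a := by
    rw [hq]
    push_cast
    have h5 : (0 : ℝ) ≤ ⌈r₀⌉₊ := Nat.cast_nonneg _
    have h6 : (m : ℝ) ≤ max (Q1 : ℝ) m := le_max_right _ _
    linarith
  have hqr : r₀ ≤ (q : ℝ) - a := by
    rw [hq]
    push_cast
    have h5 := Nat.le_ceil r₀
    have h6 : (0 : ℝ) ≤ max (Q1 : ℝ) m := le_max_of_le_left (Nat.cast_nonneg _)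
    linarith
  have hTκ : T ≤ κ * ((q : ℝ) - a) := by
    rw [div_le_iff₀ hκ] at hm
    calc T ≤ m * κ := hm
      _ = κ * m := by ring
      _ ≤ κ * ((q : ℝ) - a) := by gcongr
  have haq : (a : ℝ) ≤ q := by linarith
  have hzq : z ∈ fs (Pi ω) (q : ℝ) := (f3 ω _ z).2 ⟨hz, by linarith⟩
  -- no bad point
  have hL : Loc ε κ ((q : ℝ) - a) z (del z (fs (Pi ω) (q : ℝ))) := by
    by_contra hcon
    apply hbad
    refine le_trans ?_ (Finset.single_le_sum
      (f := fun z => bdp ε κ ((q : ℝ) - a) a z (fs (Pi ω) (q : ℝ))) (fun _ _ => zero_le) hzq)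
    show 1 ≤ bdp ε κ ((q : ℝ) - a) a z (fs (Pi ω) (q : ℝ))
    unfold bdp
    rw [if_pos ⟨ha, hu z hz, hcon⟩]
  have hkey : ∀ R : ℝ, (q : ℝ) ≤ R → ∀ t : ℝ, 0 ≤ t → t ≤ T →
      (ExistsAt ε (Pi ω) R z t ↔
        alive ε z t (res (Metric.ball z.1 ((q : ℝ) - a)) (del z (fs (Pi ω) (q : ℝ))))) := by
    intro R hR t ht htT
    have hzR : z ∈ fs (Pi ω) R := (f3 ω _ z).2 ⟨hz, by linarith⟩
    have hres : res (Metric.ball z.1 ((q : ℝ) - a)) (del z (fs (Pi ω) R)) =
        res (Metric.ball z.1 ((q : ℝ) - a)) (del z (fs (Pi ω) (q : ℝ))) := by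
      ext y
      unfold res
      rw [Finset.mem_filter, Finset.mem_filter, mem_del, mem_del, f3, f3]
      constructor
      · rintro ⟨⟨h5, h6, -⟩, h7⟩
        refine ⟨⟨h5, h6, ?_⟩, h7⟩
        have h8 : ‖y.1 - z.1‖ < (q : ℝ) - a := by
          rw [← dist_eq_norm]
          exact Metric.mem_ball.1 h7
        have h9 : ‖y.1‖ ≤ ‖y.1 - z.1‖ + ‖z.1‖ := by
          have := norm_add_le (y.1 - z.1) z.1
          rwa [sub_add_cancel] at this
        linarith
      · rintro ⟨⟨h5, h6, h7⟩, h8⟩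
        exact ⟨⟨h5, h6, by linarith⟩, h8⟩
    have hLR : Loc ε κ ((q : ℝ) - a) z (del z (fs (Pi ω) R)) := by
      unfold Loc at hL ⊢
      rw [hres]
      exact hL
    have h10 := hloc (del z (fs (Pi ω) R)) z ((q : ℝ) - a) t ?_ (hu z hz) ?_ hqr ht
      (htT.trans hTκ) hLR
    · rw [hres] at h10
      rw [← h10]
      unfold ExistsAt alive
      rw [ins_del hzR]
    · intro y hy
      rw [mem_del, f3] at hy
      exact hu y hy.2.1
    · rw [mem_del]
      exact fun h => h.1 rfl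
  refine ⟨q, fun R hR t ht htT => ?_⟩
  rw [hkey R hR t ht htT, hkey q le_rfl t ht htT]

end Run7.h624.Met
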