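import Pool.Agent.Run7.h146.Met.I1

/-!
# Pieces MK and RMV of the project MP_dd21b1_pr (helper146): Mecke formula, removal of points
-/

set_option autoImplicit false

open MeasureTheory Filter Topology ENNReal

namespace Run7.h624.Met

open Run7.h146.Met

open Classical in
/-- the image of a vector of points -/
noncomputable def im {α : Type*} {n : ℕ} (y : Fin n → α) : Finset α := Finset.univ.image y

/-- the weights -/
noncomputable def cw {d : ℕ} (ν : Measure (X d)) (n : ℕ) : ℝ≥0∞ :=
  ENNReal.ofReal (Real.exp (-(ν Set.univ).toReal)) / (n.factorial : ℝ≥0∞)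

lemma mem_im {α : Type*} {n : ℕ} {y : Fin n → α} {x : α} : x ∈ im y ↔ ∃ i, y i = x := by
  classical
  simp [im]

lemma mem_ins {α : Type*} {x z : α} {F : Finset α} : x ∈ ins z F ↔ x = z ∨ x ∈ F := by
  classical
  unfold ins
  rw [Finset.mem_insert]

/-- the integral formula with classical instances -/
lemma int_poi (h1 : S_PO1) {d : ℕ} (ν : Measure (X d)) [IsFiniteMeasure ν]
    (G : Finset (X d) → ℝ≥0∞) (hG : Measurable G) :
    ∫⁻ F, G F ∂(poi ν) = ∑' n : ℕ, cw ν n * ∫⁻ y : Fin n → X d, G (im y) ∂(Measure.pi fun _ => ν) := by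
  have h := (h1 d ν).2.1 G hG
  rw [h]
  refine tsum_congr fun n => ?_
  unfold cw im
  congr 1
  refine lintegral_congr fun y => ?_
  congr 1
  ext x
  simp only [Finset.mem_image]

lemma meas_sec (h1 : S_PO1) {d : ℕ} {β : Type} [MeasurableSpace β]
    (h : β → Finset (X d) → ℝ≥0∞) (hh : TM h) (b : β) : Measurable (h b) :=
  (h1 d (0 : Measure (X d))).2.2.1 β h hh b

lemma im_above {d n : ℕ} (y : Fin (n + 1) → X d) (i : Fin (n + 1)) :
    im y = ins (y i) (im fun j => y (i.succAbove j)) := by
  classical
  ext x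
  rw [mem_ins, mem_im, mem_im]
  constructor
  · rintro ⟨j, rfl⟩
    rcases eq_or_ne j i with h | h
    · left
      rw [h]
    · right
      obtain ⟨k, hk⟩ := Fin.exists_succAbove_eq h
      exact ⟨k, by rw [hk]⟩
  · rintro (h | ⟨j, hj⟩)
    · exact ⟨i, h.symm⟩
    · exact ⟨_, hj⟩

lemma eq_null {d n : ℕ} (ν : Measure (X d)) [IsFiniteMeasure ν] [NullSingletonClass ν]
    {i j : Fin n} (hij : i ≠ j) :
    (Measure.pi fun _ : Fin n => ν) {y | y i = y j} = 0 := by
  cases n with
  | zero => exact i.elim0
  | succ n =>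
    obtain ⟨k, hk⟩ := Fin.exists_succAbove_eq hij.symm
    have e := measurePreserving_piFinSuccAbove (fun _ : Fin (n + 1) => ν) i
    have hs : MeasurableSet {p : X d × (Fin n → X d) | p.1 = p.2 k} :=
      measurableSet_eq_fun measurable_fst ((measurable_pi_apply k).comp measurable_snd)
    have h1 : {y : Fin (n + 1) → X d | y i = y j} =
        (MeasurableEquiv.piFinSuccAbove (fun _ => X d) i) ⁻¹' {p : X d × (Fin n → X d) | p.1 = p.2 k} := by
      ext y
      simp only [Set.mem_ofPred_eq, Set.mem_preimage]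
      rw [← hk]
      rfl
    rw [h1, e.measure_preimage hs.nullMeasurableSet, Measure.prod_apply_symm hs]
    rw [lintegral_eq_zero_iff (measurable_measure_prodMk_right hs)]
    refine Eventually.of_forall fun z => ?_
    have h2 : (fun a => (a, z)) ⁻¹' {p : X d × (Fin n → X d) | p.1 = p.2 k} = {z k} := by
      ext a
      simp
    show ν _ = 0
    rw [h2]
    exact measure_singleton _

lemma ae_inj {d n : ℕ} (ν : Measure (X d)) [IsFiniteMeasure ν] [NullSingletonClass ν] :
    ∀ᵐ y ∂(Measure.pi fun _ : Fin n => ν), Function.Injective y := by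
  have h : ∀ᵐ y ∂(Measure.pi fun _ : Fin n => ν), ∀ i j : Fin n, i ≠ j → y i ≠ y j := by
    rw [ae_all_iff]
    intro i
    rw [ae_all_iff]
    intro j
    by_cases hij : i = j
    · exact Eventually.of_forall fun y h => absurd hij h
    · have h0 := eq_null ν hij
      rw [← compl_mem_ae_iff] at h0
      filter_upwards [h0] with y hy _
      exact hy
  filter_upwards [h] with y hy i j hij
  by_contra hne
  exact hy i j hne hij

lemma sum_im {α : Type*} {n : ℕ} {y : Fin n → α} (hy : Function.Injective y) (f : α → ℝ≥0∞) :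
    ∑ x ∈ im y, f x = ∑ i, f (y i) := by
  classical
  unfold im
  rw [Finset.sum_image fun i _ j _ h => hy h]

lemma cw_succ {d : ℕ} (ν : Measure (X d)) (n : ℕ) :
    cw ν (n + 1) * ((n + 1 : ℕ) : ℝ≥0∞) = cw ν n := by
  unfold cw
  rw [div_eq_mul_inv, div_eq_mul_inv, mul_assoc]
  congr 1
  rw [Nat.factorial_succ, Nat.cast_mul, ENNReal.mul_inv (Or.inr (ENNReal.natCast_ne_top _))
    (Or.inl (ENNReal.natCast_ne_top _)), mul_comm (((n + 1 : ℕ) : ℝ≥0∞)⁻¹), mul_assoc,
    ENNReal.inv_mul_cancel (by simp) (ENNReal.natCast_ne_top _), mul_one]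

/-- piece MK -/
theorem t_MK : S_PO1 → S_PO2 → S_PO3 → S_MK := by
  intro h1 h2 h3 d ν _ _
  classical
  refine ⟨fun h hh => ?_, fun x => ?_⟩
  · -- measurability
    have mh : ∀ n, Measurable fun p : X d × (Fin n → X d) => h p.1 (im p.2) := fun n => hh n
    have mL : Measurable (fun F : Finset (X d) => ∑ x ∈ F, h x F) := by
      have hT : TM (fun (p : Unit × X d) F => h p.2 F) := by
        intro n
        exact (mh n).comp (f := fun p : (Unit × X d) × (Fin n → X d) => (p.1.2, p.2))
          ((measurable_snd.comp measurable_fst).prodMk measurable_snd)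
      exact meas_sec h1 _ (h3 d Unit (fun p F => h p.2 F) hT) ()
    have hI : TM (fun (p : X d × X d) F => h p.1 (ins p.2 F)) := (h2 d (X d) h hh).1
    have mI : ∀ x, Measurable (fun F => h x (ins x F)) := fun x => meas_sec h1 _ hI (x, x)
    have mIn : ∀ n, Measurable fun p : X d × (Fin n → X d) => h p.1 (ins p.1 (im p.2)) := by
      intro n
      exact (hI n).comp (f := fun p : X d × (Fin n → X d) => ((p.1, p.1), p.2))
        ((measurable_fst.prodMk measurable_fst).prodMk measurable_snd)
    let J : ℕ → ℝ≥0∞ := fun n => ∫⁻ a, ∫⁻ y : Fin n → X d, h a (ins a (im y))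
      ∂(Measure.pi fun _ => ν) ∂ν
    have hterm : ∀ (n : ℕ) (i : Fin (n + 1)), ∫⁻ y : Fin (n + 1) → X d, h (y i) (im y)
        ∂(Measure.pi fun _ => ν) = J n := by
      intro n i
      have e := measurePreserving_piFinSuccAbove (fun _ : Fin (n + 1) => ν) i
      have h5 := e.lintegral_comp (mIn n)
      simp only [J]
      rw [← lintegral_prod (fun p : X d × (Fin n → X d) => h p.1 (ins p.1 (im p.2)))
        (mIn n).aemeasurable, ← h5]
      refine lintegral_congr fun y => ?_
      rw [im_above y i]
      rfl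
    have hN : ∀ n : ℕ, ∫⁻ y : Fin (n + 1) → X d, ∑ x ∈ im y, h x (im y)
        ∂(Measure.pi fun _ => ν) = ((n + 1 : ℕ) : ℝ≥0∞) * J n := by
      intro n
      have h5 : ∫⁻ y : Fin (n + 1) → X d, ∑ x ∈ im y, h x (im y) ∂(Measure.pi fun _ => ν) =
          ∫⁻ y : Fin (n + 1) → X d, ∑ i, h (y i) (im y) ∂(Measure.pi fun _ => ν) := by
        refine lintegral_congr_ae ?_
        filter_upwards [ae_inj ν] with y hy
        exact sum_im hy _
      rw [h5, lintegral_finsetSum]
      · rw [Finset.sum_congr rfl fun i _ => hterm n i, Finset.sum_const, Finset.card_univ,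
          Fintype.card_fin, nsmul_eq_mul]
      · intro i _
        exact (mh (n + 1)).comp (f := fun y : Fin (n + 1) → X d => (y i, y))
          ((measurable_pi_apply i).prodMk measurable_id)
    rw [int_poi h1 ν _ mL, tsum_eq_zero_add' ENNReal.summable]
    have h0 : ∫⁻ y : Fin 0 → X d, ∑ x ∈ im y, h x (im y) ∂(Measure.pi fun _ => ν) = 0 := by
      have h5 : ∀ y : Fin 0 → X d, ∑ x ∈ im y, h x (im y) = 0 := by
        intro y
        have : im y = ∅ := by
          unfold im
          simp
        rw [this, Finset.sum_empty]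
      simp only [h5, lintegral_zero]
    rw [h0, mul_zero, zero_add]
    have hR : ∀ x : X d, ∫⁻ F, h x (ins x F) ∂(poi ν) = ∑' n : ℕ, cw ν n *
        ∫⁻ y : Fin n → X d, h x (ins x (im y)) ∂(Measure.pi fun _ => ν) :=
      fun x => int_poi h1 ν _ (mI x)
    simp only [hR]
    rw [lintegral_tsum]
    · refine tsum_congr fun n => ?_
      rw [hN, ← mul_assoc, cw_succ, lintegral_const_mul]
      exact (mIn n).lintegral_prod_right'
    · intro n
      exact ((mIn n).lintegral_prod_right'.const_mul _).aemeasurable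
  · -- a given point
    have hpre : ∀ n, (fun y : Fin n → X d => im y) ⁻¹' {F | x ∈ F} = ⋃ i, {y | y i = x} := by
      intro n
      ext y
      simp [mem_im]
    have hpm : ∀ n, MeasurableSet ((fun y : Fin n → X d => im y) ⁻¹' {F | x ∈ F}) := by
      intro n
      rw [hpre]
      exact MeasurableSet.iUnion fun i => measurableSet_eq_fun (measurable_pi_apply i) measurable_const
    have hs : MeasurableSet {F : Finset (X d) | x ∈ F} := by
      rw [MeasurableSpace.measurableSet_iInf]
      intro n
      exact hpm n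
    have hmi : ∀ n, Measurable (fun y : Fin n → X d => im y) := by
      intro n
      exact measurable_iff_le_map.2 (iInf_le _ n)
    unfold poi
    rw [Measure.sum_apply _ hs]
    rw [ENNReal.tsum_eq_zero]
    intro n
    rw [Measure.smul_apply]
    change _ • (Measure.map (fun y : Fin n → X d => im y) (Measure.pi fun _ => ν)) {F | x ∈ F} = 0
    rw [Measure.map_apply (hmi n) hs]
    have h6 : (Measure.pi fun _ : Fin n => ν) ((fun y : Fin n → X d => im y) ⁻¹' {F | x ∈ F}) = 0 := by
      rw [hpre, measure_iUnion_null_iff]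
      intro i
      exact Measure.pi_hyperplane (fun _ : Fin n => ν) i x
    rw [h6, smul_zero]

end Run7.h624.Met
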